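import Pool.Agent.U588.WH.Final

/-!
# MP_5b99fd_an: the best constant in the weighted Hardy inequality with weight `(1+|x|^2)^α`

We determine `C(α,n)` for every `n ≥ 3` and every `α ≠ -(n-2)/2`:

* `C(α,n) = -2α` for `α ≤ -n`,
* `C(α,n) = -4α-2n` for `-n ≤ α ≤ -(n+2)/2`,
* `C(α,n) = (n+2α-2)^2/4` for `-(n+2)/2 ≤ α ≤ n/2+1`, `α ≠ -(n-2)/2`,
* `C(α,n) = 2n(α-1)` for `α ≥ n/2+1`.
-/

set_option autoImplicit false

open MeasureTheory
open scoped ContDiff

namespace Pool.Agent.Results.MP_5b99fd_an.BestConstant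

/-- The numerator `∫ (1+|x|²)^α |∇u|² dx`. -/
noncomputable def num (n : ℕ) (α : ℝ) (u : EuclideanSpace ℝ (Fin n) → ℝ) : ℝ :=
  ∫ x, (1 + ‖x‖ ^ 2) ^ α * ‖gradient u x‖ ^ 2

/-- The denominator `∫ (1+|x|²)^(α-1) u² dx`. -/
noncomputable def den (n : ℕ) (α : ℝ) (u : EuclideanSpace ℝ (Fin n) → ℝ) : ℝ :=
  ∫ x, (1 + ‖x‖ ^ 2) ^ (α - 1) * (u x) ^ 2

/-- The admissible functions: the nonzero `u ∈ C_c^∞(ℝⁿ)`, with
`∫ (1+|x|²)^(α-1) u dx = 0` if `α < -(n-2)/2`. -/
structure Admissible (n : ℕ) (α : ℝ) (u : EuclideanSpace ℝ (Fin n) → ℝ) : Prop where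
  smooth : ContDiff ℝ ∞ u
  compact : HasCompactSupport u
  nonzero : u ≠ 0
  mean : α < -((n : ℝ) - 2) / 2 → ∫ x, (1 + ‖x‖ ^ 2) ^ (α - 1) * u x = 0

/-- The set of all quotients; `C(α,n)` is its infimum. -/
def Quotients (n : ℕ) (α : ℝ) : Set ℝ :=
  {q | ∃ u : EuclideanSpace ℝ (Fin n) → ℝ, Admissible n α u ∧ q = num n α u / den n α u}

open Pool.Agent.U588.WH in
theorem num_eq {n : ℕ} (α : ℝ) (u : EuclideanSpace ℝ (Fin n) → ℝ) : num n α u = energy α u := by
  unfold num energy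
  refine integral_congr_ae (Filter.Eventually.of_forall fun x => ?_)
  simp only
  have : ‖gradient u x‖ = ‖fderiv ℝ u x‖ := by
    unfold gradient
    exact LinearIsometryEquiv.norm_map _ _
  rw [this]

open Pool.Agent.U588.WH in
theorem den_eq {n : ℕ} (α : ℝ) (u : EuclideanSpace ℝ (Fin n) → ℝ) : den n α u = mass α u := rfl

open Pool.Agent.U588.WH in
theorem den_pos {n : ℕ} {α : ℝ} {u : EuclideanSpace ℝ (Fin n) → ℝ} (h : Admissible n α u) :
    0 < mass α u := by
  obtain ⟨x, hx⟩ := Function.ne_iff.1 h.nonzero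
  have hc : HasCompactSupport fun x => (u x) ^ 2 := by
    have : (fun x => (u x) ^ 2) = fun x => u x * u x := by funext x; ring
    rw [this]
    exact h.compact.mul_right
  refine Continuous.integral_pos_of_hasCompactSupport_nonneg_nonzero (x := x)
    ((continuous_wt _).mul (h.smooth.continuous.pow 2)) hc.mul_left
    (fun x => mul_nonneg (wt_pos _ x).le (sq_nonneg _)) ?_
  exact mul_ne_zero (wt_pos _ x).ne' (pow_ne_zero 2 hx)

open Pool.Agent.U588.WH in
theorem glb_of {n : ℕ} {α Λ : ℝ}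
    (hlow : ∀ u : EuclideanSpace ℝ (Fin n) → ℝ, Admissible n α u → Λ * mass α u ≤ energy α u)
    (hup : ∀ c, (∀ u : EuclideanSpace ℝ (Fin n) → ℝ, Admissible n α u →
      c * mass α u ≤ energy α u) → c ≤ Λ) : IsGLB (Quotients n α) Λ := by
  constructor
  · rintro q ⟨u, hu, rfl⟩
    rw [num_eq, den_eq, le_div_iff₀ (den_pos hu)]
    exact hlow u hu
  · intro c hc
    refine hup c fun u hu => ?_
    have h := hc ⟨u, hu, rfl⟩
    rw [num_eq, den_eq, le_div_iff₀ (den_pos hu)] at h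
    exact h

open Pool.Agent.U588.WH in
theorem zero_case {n : ℕ} (α c : ℝ) :
    c * mass α (0 : EuclideanSpace ℝ (Fin n) → ℝ) ≤ energy α (0 : EuclideanSpace ℝ (Fin n) → ℝ) := by
  unfold mass energy
  simp

open Pool.Agent.U588.WH in
theorem valid_free {n : ℕ} {α c : ℝ} (h : -((n : ℝ) - 2) / 2 ≤ α)
    (hc : ∀ u : EuclideanSpace ℝ (Fin n) → ℝ, Admissible n α u → c * mass α u ≤ energy α u) :
    ValidFree n α c := by
  intro u hu hcs
  by_cases h0 : u = 0
  · rw [h0]; exact zero_case α c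
  · exact hc u ⟨hu, hcs, h0, fun h' => absurd h' (not_lt.2 h)⟩

open Pool.Agent.U588.WH in
theorem valid_mean {n : ℕ} {α c : ℝ}
    (hc : ∀ u : EuclideanSpace ℝ (Fin n) → ℝ, Admissible n α u → c * mass α u ≤ energy α u) :
    ValidMean n α c := by
  intro u hu hcs hm
  by_cases h0 : u = 0
  · rw [h0]; exact zero_case α c
  · exact hc u ⟨hu, hcs, h0, fun _ => hm⟩

open Pool.Agent.U588.WH in
/-- The best constant for every `n ≥ 3` and every `α ≠ -(n-2)/2`. -/
theorem result (n : ℕ) (hn : 3 ≤ n) (α : ℝ) (hα : α ≠ -((n : ℝ) - 2) / 2) :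
    (α ≤ -(n : ℝ) → IsGLB (Quotients n α) (-2 * α)) ∧
    (-(n : ℝ) ≤ α → α ≤ -((n : ℝ) + 2) / 2 → IsGLB (Quotients n α) (-4 * α - 2 * n)) ∧
    (-((n : ℝ) + 2) / 2 ≤ α → α ≤ (n : ℝ) / 2 + 1 →
      IsGLB (Quotients n α) (((n : ℝ) + 2 * α - 2) ^ 2 / 4)) ∧
    ((n : ℝ) / 2 + 1 ≤ α → IsGLB (Quotients n α) (2 * n * (α - 1))) := by
  have hn3 : (3:ℝ) ≤ n := by exact_mod_cast hn
  have hn1 : 1 ≤ n := by omega
  refine ⟨fun h1 => ?_, fun h1 h2 => ?_, fun h1 h2 => ?_, fun h1 => ?_⟩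
  · have hα' : α < -((n : ℝ) - 2) / 2 := by linarith
    refine glb_of (fun u hu => ?_) (fun c hc => ?_)
    · exact lower_con hn hα' _ (by linarith) (Or.inl ⟨le_rfl, by linarith, by linarith⟩) u
        (hu.smooth.of_le (by simp)) hu.compact (hu.mean hα')
    · exact mean_coord hn1 (by linarith) (valid_mean hc)
  · have hα' : α < -((n : ℝ) - 2) / 2 := by linarith
    refine glb_of (fun u hu => ?_) (fun c hc => ?_)
    · exact lower_con hn hα' _ (by linarith) (Or.inl ⟨by linarith, le_rfl, h2⟩) u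
        (hu.smooth.of_le (by simp)) hu.compact (hu.mean hα')
    · rcases h2.lt_or_eq with h3 | h3
      · exact mean_quad hn1 h3 (valid_mean hc)
      · have h4 := mean_threshold hn1 hα' (valid_mean hc)
        have e : ((n : ℝ) + 2 * α - 2) ^ 2 / 4 = -4 * α - 2 * n := by
          rw [h3]
          ring
        rw [e] at h4
        exact h4
  · rcases lt_or_gt_of_ne hα with h3 | h3
    · refine glb_of (fun u hu => ?_) (fun c hc => ?_)
      · exact lower_con hn h3 _ (by positivity) (Or.inr ⟨h1, rfl⟩) u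
          (hu.smooth.of_le (by simp)) hu.compact (hu.mean h3)
      · exact mean_threshold hn1 h3 (valid_mean hc)
    · refine glb_of (fun u hu => ?_) (fun c hc => ?_)
      · exact lower_mid hn h3 h2 u (hu.smooth.of_le (by simp)) hu.compact
      · exact free_threshold h3 (valid_free h3.le hc)
  · have h3 : -((n : ℝ) - 2) / 2 < α := by linarith
    refine glb_of (fun u hu => ?_) (fun c hc => ?_)
    · exact lower_high u (hu.smooth.of_le (by simp)) hu.compact
    · rcases h1.lt_or_eq with h4 | h4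
      · exact free_eigen hn1 h4 (valid_free h3.le hc)
      · have h5 := free_threshold h3 (valid_free h3.le hc)
        have e : ((n : ℝ) + 2 * α - 2) ^ 2 / 4 = 2 * n * (α - 1) := by
          rw [← h4]
          ring
        rw [e] at h5
        exact h5

end Pool.Agent.Results.MP_5b99fd_an.BestConstant
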